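import Pool.Agent.helper62.VQ.SpecE

/-!
# MP_07c750, project VQ, block 5, row LCS (the local coordinates are surjective)
-/

set_option autoImplicit false

open scoped MatrixGroups ContDiff Topology UpperHalfPlane
open UpperHalfPlane MeasureTheory Filter Set

namespace Pool.Agent.VQE

open Pool.Agent.RS

noncomputable section

theorem LCS_dg : dg 0 0 = 1 := by
  unfold dg
  rw [dif_pos (by norm_num)]
  apply Matrix.SpecialLinearGroup.ext
  intro i j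
  fin_cases i <;> fin_cases j <;> simp

theorem LCS_sg (p q : SL(2, ℝ) → ℝ) (g : SL(2, ℝ)) (hp : p g ≠ 0) : sg p q g 0 0 = 1 := by
  unfold sg
  rw [LCS_dg, mul_one]
  simp [hp]

theorem LCS_hu (p q : SL(2, ℝ) → ℝ) (g : SL(2, ℝ)) (hp : p g ≠ 0) : hu p q g 0 0 = 0 ∧ hv p q g 0 0 = 0 := by
  unfold hu hv
  rw [LCS_sg p q g hp, LCS_dg, mul_one]
  simp

theorem LCS_st (p q : SL(2, ℝ) → ℝ) (f : ℝ → SL(2, ℝ) → SL(2, ℝ)) (hp : ∀ g, p g ≠ 0) (g : SL(2, ℝ)) : st p q f g 0 = 0 := by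
  have hex : ∃ c : ℝ, ∃ x y : ℝ → ℝ, SM p q f g x y ∧ x 0 = 0 ∧ y 0 = c := by
    refine ⟨0, fun _ => 0, fun _ => 0, ⟨fun t _ => ?_, fun t _ => ?_, by simp, fun t _ => by simp, fun t _ => by simp⟩, rfl, rfl⟩
    · rw [(LCS_hu p q (f t g) (hp _)).1, neg_zero, sub_zero]
      exact hasDerivAt_const t 0
    · rw [(LCS_hu p q (f t g) (hp _)).2, add_zero]
      exact hasDerivAt_const t 0
  obtain ⟨x, y, hS, hx, hy⟩ := Classical.epsilon_spec hex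
  have h1 := hS.cone 0 (le_refl 0)
  rw [hx, hy, abs_zero, zero_div] at h1
  exact abs_nonpos_iff.1 h1

theorem LCS_Sb (p q : SL(2, ℝ) → ℝ) (f : ℝ → SL(2, ℝ) → SL(2, ℝ)) (hp : ∀ g, p g ≠ 0) (g : SL(2, ℝ)) : Sb p q f 0 g = g := by
  unfold Sb
  rw [LCS_st p q f hp g, LCS_dg, mul_one]

theorem LCS_psi (p q : SL(2, ℝ) → ℝ) (f : ℝ → SL(2, ℝ) → SL(2, ℝ)) (hp : ∀ g, p g ≠ 0) (hf : ∀ g, f 0 g = g) (g : SL(2, ℝ)) :
    psi p q f g (fun _ => 0) = g := by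
  unfold psi Ub
  rw [neg_zero, hf, LCS_Sb (rp p) (rq q) (rf f) (fun g => hp _), LCS_Sb p q f hp, mul_inv_cancel_right]

theorem LCS_nm (D : SL(2, ℝ)) : |D.1 0 0 - 1| ≤ nm D ∧ |D.1 0 1| ≤ nm D ∧ |D.1 1 0| ≤ nm D ∧ |D.1 1 1 - 1| ≤ nm D := by
  unfold nm
  refine ⟨le_max_of_le_left (le_max_left _ _), le_max_of_le_left (le_max_right _ _), le_max_of_le_right (le_max_left _ _),
    le_max_of_le_right (le_max_right _ _)⟩

theorem LCS_proof (h1 : NMB_stmt) (h2 : LCL_stmt) : LCS_stmt := by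
  have _ := h1
  intro δ p q f hδ hδ1 hF hW g D hD
  obtain ⟨-, hL⟩ := h2 δ p q f hδ hδ1 hF hW
  have hp : ∀ g, p g ≠ 0 := by
    intro g h0
    have := hF.p0 g
    rw [h0] at this
    norm_num at this
    linarith
  set Q : Set (Fin 3 → ℝ) := Icc (fun _ : Fin 3 => -(1 / 1000 : ℝ)) (fun _ => 1 / 1000) with hQ
  have hmem : ∀ z : Fin 3 → ℝ, z ∈ Q ↔ ∀ i, |z i| ≤ 1 / 1000 := by
    intro z
    rw [hQ, mem_Icc, Pi.le_def, Pi.le_def]
    constructor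
    · rintro ⟨ha, hb⟩ i
      exact abs_le.2 ⟨ha i, hb i⟩
    · intro h
      exact ⟨fun i => (abs_le.1 (h i)).1, fun i => (abs_le.1 (h i)).2⟩
  have h0Q : (fun _ : Fin 3 => (0 : ℝ)) ∈ Q := (hmem _).2 fun i => by simp
  have hpsi0 : g⁻¹ * psi p q f g (fun _ => 0) = 1 := by
    rw [LCS_psi p q f hp hW.zero g, inv_mul_cancel]
  set M : (Fin 3 → ℝ) → SL(2, ℝ) := fun z => g⁻¹ * psi p q f g z with hM
  set Om : (Fin 3 → ℝ) → Fin 3 → ℝ := fun z => ![(M z).1 0 0 - (M z).1 1 1, (M z).1 1 0, (M z).1 0 1] with hOm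
  set w : Fin 3 → ℝ := ![D.1 0 0 - D.1 1 1, D.1 1 0, D.1 0 1] with hw
  obtain ⟨n1, n2, n3, n4⟩ := LCS_nm D
  have hwb : ∀ i, |w i| ≤ 1 / 2000 := by
    intro i
    fin_cases i
    · show |D.1 0 0 - D.1 1 1| ≤ 1 / 2000
      have : D.1 0 0 - D.1 1 1 = (D.1 0 0 - 1) - (D.1 1 1 - 1) := by ring
      rw [this]
      exact (abs_sub _ _).trans (by linarith)
    · show |D.1 1 0| ≤ 1 / 2000
      linarith
    · show |D.1 0 1| ≤ 1 / 2000
      linarith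
  have hlip : ∀ z ∈ Q, ∀ z' ∈ Q, ∀ i, |(Om z i - z i) - (Om z' i - z' i)| ≤ 3 / 10 * dist z z' := by
    intro z hz z' hz' i
    obtain ⟨-, a1, a2, a3, a4⟩ := hL g z hz z' hz'
    have hd : 0 ≤ dist z z' := dist_nonneg
    fin_cases i
    · show |((M z).1 0 0 - (M z).1 1 1 - z 0) - ((M z').1 0 0 - (M z').1 1 1 - z' 0)| ≤ 3 / 10 * dist z z'
      have : ((M z).1 0 0 - (M z).1 1 1 - z 0) - ((M z').1 0 0 - (M z').1 1 1 - z' 0) =
          ((M z).1 0 0 - (M z').1 0 0 - (z 0 - z' 0) / 2) - ((M z).1 1 1 - (M z').1 1 1 + (z 0 - z' 0) / 2) := by ring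
      rw [this]
      exact (abs_sub _ _).trans (by linarith)
    · show |((M z).1 1 0 - z 1) - ((M z').1 1 0 - z' 1)| ≤ 3 / 10 * dist z z'
      have : ((M z).1 1 0 - z 1) - ((M z').1 1 0 - z' 1) = (M z).1 1 0 - (M z').1 1 0 - (z 1 - z' 1) := by ring
      rw [this]
      exact a2
    · show |((M z).1 0 1 - z 2) - ((M z').1 0 1 - z' 2)| ≤ 3 / 10 * dist z z'
      have : ((M z).1 0 1 - z 2) - ((M z').1 0 1 - z' 2) = (M z).1 0 1 - (M z').1 0 1 - (z 2 - z' 2) := by ring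
      rw [this]
      exact a1
  have hOm0 : ∀ i, Om (fun _ => 0) i = 0 := by
    intro i
    have h3 : M (fun _ => 0) = 1 := hpsi0
    fin_cases i
    · show (M (fun _ => 0)).1 0 0 - (M (fun _ => 0)).1 1 1 = 0
      rw [h3]
      simp
    · show (M (fun _ => 0)).1 1 0 = 0
      rw [h3]
      simp
    · show (M (fun _ => 0)).1 0 1 = 0
      rw [h3]
      simp
  have hdist0 : ∀ z ∈ Q, dist z (fun _ => 0) ≤ 1 / 1000 := by
    intro z hz
    rw [dist_pi_le_iff (by norm_num)]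
    intro i
    rw [Real.dist_eq, sub_zero]
    exact (hmem z).1 hz i
  have hmap : ∀ z ∈ Q, (fun i => w i - (Om z i - z i)) ∈ Q := by
    intro z hz
    rw [hmem]
    intro i
    have h3 := hlip z hz _ h0Q i
    rw [hOm0 i, sub_zero, sub_zero] at h3
    have h4 := hdist0 z hz
    have h5 := hwb i
    exact (abs_sub _ _).trans (by linarith)
  have hcl : IsClosed Q := isClosed_Icc
  have hcomp : CompleteSpace Q := hcl.completeSpace_coe
  have hne : Nonempty Q := ⟨⟨_, h0Q⟩⟩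
  let T : Q → Q := fun z => ⟨fun i => w i - (Om z.1 i - z.1 i), hmap z.1 z.2⟩
  have hT : ContractingWith (3 / 10) T := by
    refine ⟨?_, LipschitzWith.of_dist_le_mul fun z z' => ?_⟩
    · rw [← NNReal.coe_lt_coe]
      norm_num
    · rw [Subtype.dist_eq, Subtype.dist_eq, dist_pi_le_iff (by positivity)]
      intro i
      have h3 := hlip z.1 z.2 z'.1 z'.2 i
      rw [Real.dist_eq]
      have h4 : (w i - (Om z.1 i - z.1 i)) - (w i - (Om z'.1 i - z'.1 i)) = -((Om z.1 i - z.1 i) - (Om z'.1 i - z'.1 i)) := by ring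
      show |(w i - (Om z.1 i - z.1 i)) - (w i - (Om z'.1 i - z'.1 i))| ≤ _
      rw [h4, abs_neg]
      exact h3.trans (le_of_eq (by norm_num))
  obtain ⟨z, hz⟩ : ∃ z : Q, T z = z := ⟨ContractingWith.fixedPoint T hT, hT.fixedPoint_isFixedPt⟩
  have hfix : ∀ i, Om z.1 i = w i := by
    intro i
    have h3 : w i - (Om z.1 i - z.1 i) = z.1 i := congrFun (congrArg Subtype.val hz) i
    linarith
  refine ⟨z.1, z.2, ?_⟩
  have e0 : (M z.1).1 0 0 - (M z.1).1 1 1 = D.1 0 0 - D.1 1 1 := hfix 0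
  have e1 : (M z.1).1 1 0 = D.1 1 0 := hfix 1
  have e2 : (M z.1).1 0 1 = D.1 0 1 := hfix 2
  have dM := (M z.1).2
  have dD := D.2
  rw [Matrix.det_fin_two] at dM dD
  obtain ⟨-, -, -, b3, b4⟩ := hL g z.1 z.2 _ h0Q
  have h3 : g⁻¹ * psi p q f g (fun _ => 0) = 1 := hpsi0
  rw [h3] at b3 b4
  have h4 := hdist0 z.1 z.2
  have h5 := (hmem z.1).1 z.2 0
  have h6 : (1 : SL(2, ℝ)).1 0 0 = 1 := by simp
  have h7 : (1 : SL(2, ℝ)).1 1 1 = 1 := by simp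
  rw [h6] at b3
  rw [h7] at b4
  have b3' : |(M z.1).1 0 0 - 1 - (z.1 0 - 0) / 2| ≤ 1 / 20 * dist z.1 (fun _ => 0) := b3
  have b4' : |(M z.1).1 1 1 - 1 + (z.1 0 - 0) / 2| ≤ 1 / 20 * dist z.1 (fun _ => 0) := b4
  obtain ⟨c1, c2⟩ := abs_le.1 b3'
  obtain ⟨c3, c4⟩ := abs_le.1 b4'
  obtain ⟨c5, c6⟩ := abs_le.1 h5
  obtain ⟨m1, -⟩ := abs_le.1 n1
  obtain ⟨m4, -⟩ := abs_le.1 n4
  have hsq : ((M z.1).1 0 0 + (M z.1).1 1 1) ^ 2 = (D.1 0 0 + D.1 1 1) ^ 2 := by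
    rw [e1, e2] at dM
    have h8 : ((M z.1).1 0 0 - (M z.1).1 1 1) ^ 2 = (D.1 0 0 - D.1 1 1) ^ 2 := by rw [e0]
    linear_combination h8 + 4 * dM - 4 * dD
  have hMp : 0 ≤ (M z.1).1 0 0 + (M z.1).1 1 1 := by linarith
  have hDp : 0 ≤ D.1 0 0 + D.1 1 1 := by linarith
  have hsum : (M z.1).1 0 0 + (M z.1).1 1 1 = D.1 0 0 + D.1 1 1 := by
    rw [← abs_of_nonneg hMp, ← abs_of_nonneg hDp]
    exact (sq_eq_sq_iff_abs_eq_abs _ _).1 hsq
  have hMD : M z.1 = D := by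
    apply Matrix.SpecialLinearGroup.ext
    intro i j
    fin_cases i <;> fin_cases j
    · show (M z.1).1 0 0 = D.1 0 0
      linarith
    · exact e2
    · exact e1
    · show (M z.1).1 1 1 = D.1 1 1
      linarith
  have h8 : g⁻¹ * psi p q f g z.1 = D := hMD
  rw [← h8, mul_inv_cancel_left]

end

end Pool.Agent.VQE
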